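import Pool.Agent.Helper6.ER.Defs
import Pool.Agent.Helper10.LargeSieve
import Pool.Agent.Helper28.ER.Prim

/-! ER-2: the multiplicative large sieve from the additive one and ER-1. -/

namespace Pool.Agent.Helper6.ER

open Finset

/-- the reduced fractions -/
def farey (F : ℕ) : Finset (Σ _ : ℕ, ℕ) :=
  (Icc 1 F).sigma (fun f => (range f).filter (fun a => Nat.Coprime a f))

lemma farey_spacing (F : ℕ) (r s : Σ _ : ℕ, ℕ) (hr : r ∈ farey F) (hs : s ∈ farey F)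
    (hrs : r ≠ s) :
    1 / ((F : ℝ) ^ 2) ≤ Helper10.nd ((r.2 : ℝ) / r.1 - (s.2 : ℝ) / s.1) := by
  obtain ⟨f, a⟩ := r
  obtain ⟨g, b⟩ := s
  unfold farey at hr hs
  rw [mem_sigma, mem_Icc, mem_filter, mem_range] at hr hs
  simp only at hr hs
  obtain ⟨⟨hf1, hfF⟩, haf, hca⟩ := hr
  obtain ⟨⟨hg1, hgF⟩, hbg, hcb⟩ := hs
  have hf0 : (0 : ℝ) < f := by exact_mod_cast hf1
  have hg0 : (0 : ℝ) < g := by exact_mod_cast hg1
  have hF0 : (0 : ℝ) < F := by exact_mod_cast (lt_of_lt_of_le hf1 hfF)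
  change 1 / ((F : ℝ) ^ 2) ≤ Helper10.nd ((a : ℝ) / f - (b : ℝ) / g)
  set z : ℤ := round ((a : ℝ) / f - (b : ℝ) / g) with hz
  have hnd : Helper10.nd ((a : ℝ) / f - (b : ℝ) / g) = |(a : ℝ) / f - (b : ℝ) / g - z| := rfl
  rw [hnd]
  have hfrac : (a : ℝ) / f - (b : ℝ) / g - z =
      (((a : ℤ) * g - b * f - z * (f * g) : ℤ) : ℝ) / (f * g) := by
    push_cast
    field_simp
  have hne : ((a : ℤ) * g - b * f - z * (f * g) : ℤ) ≠ 0 := by
    intro h0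
    have h1 : (a : ℝ) / f - (b : ℝ) / g = z := by
      have : (a : ℝ) / f - (b : ℝ) / g - z = 0 := by
        rw [hfrac, h0]
        simp
      linarith
    have ha0 : (0 : ℝ) ≤ (a : ℝ) / f := by positivity
    have hb0 : (0 : ℝ) ≤ (b : ℝ) / g := by positivity
    have ha1 : (a : ℝ) / f < 1 := by
      rw [div_lt_one hf0]
      exact_mod_cast haf
    have hb1 : (b : ℝ) / g < 1 := by
      rw [div_lt_one hg0]
      exact_mod_cast hbg
    have hz0 : z = 0 := by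
      have h2 : (z : ℝ) < 1 := by linarith
      have h3 : (-1 : ℝ) < z := by linarith
      have h4 : z < 1 := by exact_mod_cast h2
      have h5 : -1 < z := by exact_mod_cast h3
      omega
    rw [hz0] at h0
    have h6 : a * g = b * f := by
      have : (a : ℤ) * g = b * f := by linarith
      exact_mod_cast this
    have h7 : f ∣ g := by
      have : f ∣ a * g := ⟨b, by rw [h6]; ring⟩
      exact (Nat.Coprime.symm hca).dvd_of_dvd_mul_left this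
    have h8 : g ∣ f := by
      have : g ∣ b * f := ⟨a, by rw [← h6]; ring⟩
      exact (Nat.Coprime.symm hcb).dvd_of_dvd_mul_left this
    have h9 : f = g := Nat.dvd_antisymm h7 h8
    subst h9
    have h10 : a = b := Nat.eq_of_mul_eq_mul_right (by omega) h6
    exact hrs (by rw [h10])
  have h1 : (1 : ℝ) ≤ |(((a : ℤ) * g - b * f - z * (f * g) : ℤ) : ℝ)| := by
    have := Int.one_le_abs hne
    exact_mod_cast this
  rw [hfrac, abs_div, abs_of_pos (mul_pos hf0 hg0)]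
  have h2 : (f : ℝ) * g ≤ (F : ℝ) ^ 2 := by
    have e1 : (f : ℝ) ≤ F := by exact_mod_cast hfF
    have e2 : (g : ℝ) ≤ F := by exact_mod_cast hgF
    nlinarith
  calc 1 / ((F : ℝ) ^ 2) ≤ 1 / ((f : ℝ) * g) := one_div_le_one_div_of_le (mul_pos hf0 hg0) h2
    _ ≤ |(((a : ℤ) * g - b * f - z * (f * g) : ℤ) : ℝ)| / (f * g) := by gcongr

/-- ER-2 with ER-1 as a hypothesis -/
theorem mult_large_sieve_of
    (H : ∀ (f : ℕ) (_ : 1 ≤ f) (K : Finset ℕ) (c : ℕ → ℂ),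
      ((f : ℝ) / f.totient) * ∑ ψ ∈ prim f, ‖∑ k ∈ K, c k * ψ (k : ZMod f)‖ ^ 2 ≤
      ∑ a ∈ (range f).filter (fun a => Nat.Coprime a f),
        ‖∑ k ∈ K, c k * Helper10.ee ((k : ℝ) * ((a : ℝ) / f))‖ ^ 2)
    (F U : ℕ) (hF : 1 ≤ F) (hU : F ^ 2 ≤ U) (K : Finset ℕ)
    (hK : ∀ k ∈ K, k < U) (c : ℕ → ℂ) :
    ∑ f ∈ Icc 1 F, ((f : ℝ) / f.totient) * ∑ ψ ∈ prim f, ‖∑ k ∈ K, c k * ψ (k : ZMod f)‖ ^ 2 ≤
      5 * U * ∑ k ∈ K, ‖c k‖ ^ 2 := by
  have hF0 : (0 : ℝ) < F := by exact_mod_cast hF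
  have h1 := Helper10.large_sieve (farey F) (fun r => (r.2 : ℝ) / r.1) (1 / (F : ℝ) ^ 2)
    (by positivity) (fun r hr s hs hrs => farey_spacing F r s hr hs hrs) K (fun k => k)
    (fun _ _ _ _ h => h) U hK (by
      rw [one_div_one_div]
      exact_mod_cast hU) c
  calc ∑ f ∈ Icc 1 F, ((f : ℝ) / f.totient) * ∑ ψ ∈ prim f, ‖∑ k ∈ K, c k * ψ (k : ZMod f)‖ ^ 2
      ≤ ∑ f ∈ Icc 1 F, ∑ a ∈ (range f).filter (fun a => Nat.Coprime a f),
        ‖∑ k ∈ K, c k * Helper10.ee ((k : ℝ) * ((a : ℝ) / f))‖ ^ 2 :=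
        Finset.sum_le_sum fun f hf => H f (mem_Icc.mp hf).1 K c
    _ = ∑ r ∈ farey F, ‖∑ k ∈ K, c k * Helper10.ee ((k : ℝ) * ((r.2 : ℝ) / r.1))‖ ^ 2 := by
        unfold farey
        rw [Finset.sum_sigma]
    _ ≤ 5 * U * ∑ k ∈ K, ‖c k‖ ^ 2 := h1

/-- ER-2 -/
theorem mult_large_sieve (F U : ℕ) (hF : 1 ≤ F) (hU : F ^ 2 ≤ U) (K : Finset ℕ)
    (hK : ∀ k ∈ K, k < U) (c : ℕ → ℂ) :
    ∑ f ∈ Icc 1 F, ((f : ℝ) / f.totient) * ∑ ψ ∈ prim f, ‖∑ k ∈ K, c k * ψ (k : ZMod f)‖ ^ 2 ≤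
      5 * U * ∑ k ∈ K, ‖c k‖ ^ 2 :=
  mult_large_sieve_of (fun f hf K c => prim_le_additive f hf K c) F U hF hU K hK c

end Pool.Agent.Helper6.ER
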