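import Pool.Agent.Helper6.ER.Defs
import Pool.Agent.Helper34.ER.LS

/-! ER-3: sums of characters over intervals, bilinear estimate. -/

namespace Pool.Agent.Helper6.ER

open Finset

/-- the sum of a nontrivial character over a full period vanishes -/
lemma period_sum (f : ℕ) (hf : 2 ≤ f) (ψ : DirichletCharacter ℂ f) (hψ : ψ ≠ 1) (c : ℕ) :
    ∑ m ∈ Ioc c (c + f), ψ (m : ZMod f) = 0 := by
  haveI : NeZero f := ⟨by omega⟩
  have hinj : Set.InjOn (fun m : ℕ => (m : ZMod f)) (Ioc c (c + f) : Finset ℕ) := by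
    intro m hm n hn hmn
    rw [Finset.mem_coe, mem_Ioc] at hm hn
    have h1 : m ≡ n [MOD f] := (ZMod.natCast_eq_natCast_iff m n f).mp hmn
    rcases le_total m n with h | h
    · have h2 : f ∣ n - m := (Nat.modEq_iff_dvd' h).mp h1
      have h3 : n - m < f := by omega
      have h4 := Nat.eq_zero_of_dvd_of_lt h2 h3
      omega
    · have h2 : f ∣ m - n := (Nat.modEq_iff_dvd' h).mp h1.symm
      have h3 : m - n < f := by omega
      have h4 := Nat.eq_zero_of_dvd_of_lt h2 h3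
      omega
  have himg : (Ioc c (c + f)).image (fun m : ℕ => (m : ZMod f)) = univ := by
    apply Finset.eq_univ_of_card
    rw [Finset.card_image_of_injOn hinj, Nat.card_Ioc, ZMod.card]
    omega
  have h5 := MulChar.sum_eq_zero_of_ne_one hψ
  rw [← himg, Finset.sum_image (fun m hm n hn h => hinj hm hn h)] at h5
  exact h5

/-- ER-3a -/
theorem interval_char_sum (f : ℕ) (hf : 2 ≤ f) (ψ : DirichletCharacter ℂ f) (hψ : ψ ≠ 1)
    (a b : ℕ) : ‖∑ m ∈ Ioc a b, ψ (m : ZMod f)‖ ≤ f := by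
  induction b using Nat.strong_induction_on with
  | _ b ih =>
    by_cases hb : b < a + f
    · calc ‖∑ m ∈ Ioc a b, ψ (m : ZMod f)‖ ≤ ∑ m ∈ Ioc a b, ‖ψ (m : ZMod f)‖ := norm_sum_le _ _
        _ ≤ ∑ m ∈ Ioc a b, (1 : ℝ) := Finset.sum_le_sum fun m _ => DirichletCharacter.norm_le_one _ _
        _ = ((b - a : ℕ) : ℝ) := by simp
        _ ≤ f := by
            have : b - a ≤ f := by omega
            exact_mod_cast this
    · have h1 : a ≤ b - f := by omega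
      have h2 : b - f ≤ b := Nat.sub_le _ _
      have h3 : Ioc a b = Ioc a (b - f) ∪ Ioc (b - f) b := (Ioc_union_Ioc_eq_Ioc h1 h2).symm
      have h4 : Disjoint (Ioc a (b - f)) (Ioc (b - f) b) := by
        rw [Finset.disjoint_left]
        intro m hm hm'
        rw [mem_Ioc] at hm hm'
        omega
      rw [h3, Finset.sum_union h4]
      have h5 : ∑ m ∈ Ioc (b - f) b, ψ (m : ZMod f) = 0 := by
        have := period_sum f hf ψ hψ (b - f)
        rwa [Nat.sub_add_cancel (by omega)] at this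
      rw [h5, add_zero]
      exact ih (b - f) (by omega)

lemma card_prim_le (f : ℕ) (hf : 1 ≤ f) : (prim f).card ≤ f.totient := by
  haveI : NeZero f := ⟨by omega⟩
  calc (prim f).card ≤ (univ : Finset (DirichletCharacter ℂ f)).card := Finset.card_le_univ _
    _ = Fintype.card (DirichletCharacter ℂ f) := rfl
    _ = f.totient := by
      rw [← Nat.card_eq_fintype_card]
      exact DirichletCharacter.card_eq_totient_of_hasEnoughRootsOfUnity ℂ f

lemma prim_ne_one (f : ℕ) (hf : 2 ≤ f) (ψ : DirichletCharacter ℂ f) (hψ : ψ ∈ prim f) :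
    ψ ≠ 1 := by
  haveI : NeZero f := ⟨by omega⟩
  rw [mem_prim] at hψ
  rintro rfl
  have h1 : (1 : DirichletCharacter ℂ f).conductor = f := hψ
  rw [DirichletCharacter.conductor_one] at h1
  omega

/-- the dyadic block of the conductors -/
def blk (D j : ℕ) : Finset ℕ := (Icc 2 D).filter (fun f => Nat.log 2 f = j)

lemma mem_blk {D j f : ℕ} : f ∈ blk D j ↔ (2 ≤ f ∧ f ≤ D) ∧ Nat.log 2 f = j := by
  unfold blk
  rw [mem_filter, mem_Icc]

lemma blk_bounds {D j f : ℕ} (hf : f ∈ blk D j) : 2 ^ j ≤ f ∧ f < 2 ^ (j + 1) := by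
  rw [mem_blk] at hf
  obtain ⟨⟨h2, _⟩, rfl⟩ := hf
  exact ⟨Nat.pow_log_le_self 2 (by omega), Nat.lt_pow_succ_log_self (by norm_num) f⟩

lemma blk_card (D j : ℕ) : (blk D j).card ≤ 2 ^ j := by
  calc (blk D j).card ≤ (Ico (2 ^ j) (2 ^ (j + 1))).card := by
        apply Finset.card_le_card
        intro f hf
        rw [mem_Ico]
        exact blk_bounds hf
    _ = 2 ^ j := by
        rw [Nat.card_Ico, pow_succ]
        omega

/-- the bilinear summand -/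
noncomputable def BS (a b : ℕ) (P : Finset ℕ) (f : ℕ) : ℝ :=
  ∑ ψ ∈ prim f, ‖∑ m ∈ Ioc a b, ψ (m : ZMod f)‖ * ‖∑ p ∈ P, ψ (p : ZMod f)‖

lemma BS_nonneg (a b : ℕ) (P : Finset ℕ) (f : ℕ) : 0 ≤ BS a b P f :=
  Finset.sum_nonneg fun _ _ => mul_nonneg (norm_nonneg _) (norm_nonneg _)

lemma BS_le (a b : ℕ) (P : Finset ℕ) (f : ℕ) (hf : 2 ≤ f) :
    (1 / (f.totient : ℝ)) * BS a b P f ≤ f * P.card := by
  have hφ : (0 : ℝ) < f.totient := by
    exact_mod_cast Nat.totient_pos.mpr (by omega)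
  have h1 : BS a b P f ≤ ∑ ψ ∈ prim f, ((f : ℝ) * P.card) := by
    apply Finset.sum_le_sum
    intro ψ hψ
    apply mul_le_mul (interval_char_sum f hf ψ (prim_ne_one f hf ψ hψ) a b) _ (norm_nonneg _)
      (by positivity)
    calc ‖∑ p ∈ P, ψ (p : ZMod f)‖ ≤ ∑ p ∈ P, ‖ψ (p : ZMod f)‖ := norm_sum_le _ _
      _ ≤ ∑ p ∈ P, (1 : ℝ) := Finset.sum_le_sum fun m _ => DirichletCharacter.norm_le_one _ _
      _ = P.card := by simp
  rw [Finset.sum_const, nsmul_eq_mul] at h1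
  have h2 : ((prim f).card : ℝ) ≤ f.totient := by exact_mod_cast card_prim_le f (by omega)
  rw [one_div, inv_mul_le_iff₀ hφ]
  calc BS a b P f ≤ ((prim f).card : ℝ) * (f * P.card) := h1
    _ ≤ f.totient * (f * P.card) := by gcongr

/-- small conductors -/
lemma block_small (D M X a b : ℕ) (P : Finset ℕ) (j : ℕ) (t : ℝ) (ht1 : 1 ≤ t)
    (hPX : (P.card : ℝ) ≤ X) (hj : (2 : ℝ) ^ j ≤ t) :
    ∑ f ∈ blk D j, (1 / (f.totient : ℝ)) * BS a b P f ≤
      2 * t ^ 3 * Real.sqrt (X * P.card) := by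
  have hP : (P.card : ℝ) ≤ Real.sqrt (X * P.card) := by
    apply Real.le_sqrt_of_sq_le
    rw [sq]
    gcongr
  have h1 : ∑ f ∈ blk D j, (1 / (f.totient : ℝ)) * BS a b P f ≤
      ∑ f ∈ blk D j, (2 : ℝ) * 2 ^ j * P.card := by
    apply Finset.sum_le_sum
    intro f hf
    have h2 := (mem_blk.mp hf).1.1
    have h3 : (f : ℝ) ≤ 2 * 2 ^ j := by
      have := (blk_bounds hf).2.le
      rw [pow_succ] at this
      have h4 : (f : ℝ) ≤ ((2 ^ j * 2 : ℕ) : ℝ) := by exact_mod_cast this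
      push_cast at h4
      linarith
    calc (1 / (f.totient : ℝ)) * BS a b P f ≤ f * P.card := BS_le a b P f h2
      _ ≤ 2 * 2 ^ j * P.card := by gcongr
  rw [Finset.sum_const, nsmul_eq_mul] at h1
  have h5 : ((blk D j).card : ℝ) ≤ 2 ^ j := by exact_mod_cast blk_card D j
  calc ∑ f ∈ blk D j, (1 / (f.totient : ℝ)) * BS a b P f
      ≤ ((blk D j).card : ℝ) * (2 * 2 ^ j * P.card) := h1
    _ ≤ 2 ^ j * (2 * 2 ^ j * P.card) := by gcongr
    _ = 2 * (2 ^ j) ^ 2 * P.card := by ring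
    _ ≤ 2 * t ^ 2 * P.card := by gcongr
    _ ≤ 2 * t ^ 3 * P.card := by
        have h7 : t ^ 2 ≤ t ^ 3 := pow_le_pow_right₀ ht1 (by norm_num)
        gcongr
    _ ≤ 2 * t ^ 3 * Real.sqrt (X * P.card) := by gcongr

/-- the mean square -/
noncomputable def SQ (K : Finset ℕ) (f : ℕ) : ℝ := ∑ ψ ∈ prim f, ‖∑ k ∈ K, ψ (k : ZMod f)‖ ^ 2

lemma SQ_nonneg (K : Finset ℕ) (f : ℕ) : 0 ≤ SQ K f := Finset.sum_nonneg fun _ _ => by positivity

lemma BS_le_sqrt (a b : ℕ) (P : Finset ℕ) (f : ℕ) :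
    BS a b P f ≤ Real.sqrt (SQ (Ioc a b) f) * Real.sqrt (SQ P f) := by
  exact Real.sum_mul_le_sqrt_mul_sqrt (prim f) (fun ψ => ‖∑ m ∈ Ioc a b, ψ (m : ZMod f)‖)
    (fun ψ => ‖∑ p ∈ P, ψ (p : ZMod f)‖)

/-- large conductors -/
lemma block_large
    (H : ∀ (F U : ℕ) (_ : 1 ≤ F) (_ : F ^ 2 ≤ U) (K : Finset ℕ)
      (_ : ∀ k ∈ K, k < U) (c : ℕ → ℂ),
      ∑ f ∈ Icc 1 F, ((f : ℝ) / f.totient) * ∑ ψ ∈ prim f, ‖∑ k ∈ K, c k * ψ (k : ZMod f)‖ ^ 2 ≤
      5 * U * ∑ k ∈ K, ‖c k‖ ^ 2)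
    (D M X a b : ℕ) (P : Finset ℕ) (j : ℕ) (t : ℝ) (ht1 : 1 ≤ t) (htM : t ^ 4 = M)
    (hD : 1 ≤ D) (hM : 1 ≤ M) (hb : b ≤ 2 * M) (hX : 16 * D ^ 2 ≤ X) (hjD : 2 ^ j ≤ D)
    (hP : ∀ p ∈ P, 1 ≤ p ∧ p ≤ X) (hj : t < (2 : ℝ) ^ j) :
    ∑ f ∈ blk D j, (1 / (f.totient : ℝ)) * BS a b P f ≤
      80 * t ^ 3 * Real.sqrt (X * P.card) := by
  set T : ℝ := (2 : ℝ) ^ j with hT
  have hT0 : 0 < T := by positivity
  -- the two large sieve bounds
  have hLS : ∀ (U : ℕ) (K : Finset ℕ), (2 ^ (j + 1)) ^ 2 ≤ U → (∀ k ∈ K, k < U) →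
      ∑ f ∈ blk D j, ((f : ℝ) / f.totient) * SQ K f ≤ 5 * U * K.card := by
    intro U K hU hK
    have h1 := H (2 ^ (j + 1)) U (Nat.one_le_two_pow) hU K hK (fun _ => 1)
    simp only [one_mul, norm_one, one_pow, Finset.sum_const, nsmul_eq_mul, mul_one] at h1
    calc ∑ f ∈ blk D j, ((f : ℝ) / f.totient) * SQ K f
        ≤ ∑ f ∈ Icc (1 : ℕ) (2 ^ (j + 1)), ((f : ℝ) / f.totient) * SQ K f := by
          apply Finset.sum_le_sum_of_subset_of_nonneg
          · intro f hf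
            rw [mem_Icc]
            have h2 := (mem_blk.mp hf).1.1
            have h3 := (blk_bounds hf).2
            omega
          · intro f _ _
            exact mul_nonneg (by positivity) (SQ_nonneg K f)
      _ ≤ 5 * U * K.card := h1
  have hA := hLS (2 * M + 1 + (2 ^ (j + 1)) ^ 2) (Ioc a b) (by omega) (by
    intro k hk
    rw [mem_Ioc] at hk
    omega)
  have hF2 : (2 ^ (j + 1)) ^ 2 ≤ X + 1 := by
    have : (2 ^ (j + 1)) ^ 2 = 4 * (2 ^ j) ^ 2 := by ring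
    rw [this]
    have h2 : (2 ^ j) ^ 2 ≤ D ^ 2 := Nat.pow_le_pow_left hjD 2
    omega
  have hB := hLS (X + 1) P hF2 (by
    intro k hk
    have := (hP k hk).2
    omega)
  have hcard : (((Ioc a b).card : ℕ) : ℝ) ≤ 2 * M := by
    rw [Nat.card_Ioc]
    have : b - a ≤ 2 * M := by omega
    exact_mod_cast this
  have hM1 : (1 : ℝ) ≤ M := by exact_mod_cast hM
  have hX1 : (1 : ℝ) ≤ X := by
    have : 1 ≤ X := by nlinarith
    exact_mod_cast this
  have hA' : ∑ f ∈ blk D j, ((f : ℝ) / f.totient) * SQ (Ioc a b) f ≤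
      (40 * t ^ 3 * T) ^ 2 / 10 := by
    have e1 : (((2 * M + 1 + (2 ^ (j + 1)) ^ 2 : ℕ)) : ℝ) = 2 * M + 1 + 4 * T ^ 2 := by
      push_cast
      rw [hT]
      ring
    rw [e1] at hA
    have e2 : t ^ 4 ≤ t ^ 3 * T := by
      have : t ^ 4 = t ^ 3 * t := by ring
      rw [this]
      gcongr
    have e3 : t ^ 2 ≤ t ^ 3 := by
      apply pow_le_pow_right₀ ht1
      norm_num
    calc ∑ f ∈ blk D j, ((f : ℝ) / f.totient) * SQ (Ioc a b) f
        ≤ 5 * (2 * M + 1 + 4 * T ^ 2) * (((Ioc a b).card : ℕ) : ℝ) := hA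
      _ ≤ 5 * (2 * M + M + 4 * T ^ 2) * (2 * M) := by gcongr
      _ = 30 * (t ^ 4) ^ 2 + 40 * T ^ 2 * (t ^ 2) ^ 2 := by rw [← htM]; ring
      _ ≤ 30 * (t ^ 3 * T) ^ 2 + 40 * T ^ 2 * (t ^ 3) ^ 2 := by gcongr
      _ ≤ (40 * t ^ 3 * T) ^ 2 / 10 := by
          have : 0 ≤ (t ^ 3 * T) ^ 2 := by positivity
          nlinarith
  have hB' : ∑ f ∈ blk D j, ((f : ℝ) / f.totient) * SQ P f ≤ 10 * (X * P.card) := by
    calc ∑ f ∈ blk D j, ((f : ℝ) / f.totient) * SQ P f ≤ 5 * ((X + 1 : ℕ) : ℝ) * P.card := hB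
      _ ≤ 5 * (X + X) * P.card := by
          push_cast
          gcongr
      _ = 10 * (X * P.card) := by ring
  have hmain : ∑ f ∈ blk D j, (1 / (f.totient : ℝ)) * BS a b P f ≤
      (1 / T) * ∑ f ∈ blk D j, Real.sqrt (((f : ℝ) / f.totient) * SQ (Ioc a b) f) *
        Real.sqrt (((f : ℝ) / f.totient) * SQ P f) := by
    rw [Finset.mul_sum]
    apply Finset.sum_le_sum
    intro f hf
    have hφ : (0 : ℝ) < f.totient := by
      exact_mod_cast Nat.totient_pos.mpr (by have := (mem_blk.mp hf).1.1; omega)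
    have hw : (0 : ℝ) ≤ (f : ℝ) / f.totient := by positivity
    have hTf : T ≤ f := by
      have := (blk_bounds hf).1
      rw [hT]
      exact_mod_cast this
    rw [Real.sqrt_mul hw, Real.sqrt_mul hw]
    have e1 : Real.sqrt ((f : ℝ) / f.totient) * Real.sqrt (SQ (Ioc a b) f) *
        (Real.sqrt ((f : ℝ) / f.totient) * Real.sqrt (SQ P f)) =
        ((f : ℝ) / f.totient) * (Real.sqrt (SQ (Ioc a b) f) * Real.sqrt (SQ P f)) := by
      have := Real.mul_self_sqrt hw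
      calc _ = (Real.sqrt ((f : ℝ) / f.totient) * Real.sqrt ((f : ℝ) / f.totient)) *
          (Real.sqrt (SQ (Ioc a b) f) * Real.sqrt (SQ P f)) := by ring
        _ = _ := by rw [this]
    rw [e1]
    have e2 : 1 / (f.totient : ℝ) ≤ (1 / T) * ((f : ℝ) / f.totient) := by
      rw [div_mul_div_comm, one_mul, div_le_div_iff₀ hφ (by positivity)]
      nlinarith
    calc (1 / (f.totient : ℝ)) * BS a b P f
        ≤ ((1 / T) * ((f : ℝ) / f.totient)) *
          (Real.sqrt (SQ (Ioc a b) f) * Real.sqrt (SQ P f)) := by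
          apply mul_le_mul e2 (BS_le_sqrt a b P f) (BS_nonneg a b P f) (by positivity)
      _ = _ := by ring
  have hcs := Real.sum_mul_le_sqrt_mul_sqrt (blk D j)
    (fun f => Real.sqrt (((f : ℝ) / f.totient) * SQ (Ioc a b) f))
    (fun f => Real.sqrt (((f : ℝ) / f.totient) * SQ P f))
  have hsq : ∀ K : Finset ℕ, ∑ f ∈ blk D j, Real.sqrt (((f : ℝ) / f.totient) * SQ K f) ^ 2 =
      ∑ f ∈ blk D j, ((f : ℝ) / f.totient) * SQ K f := by
    intro K
    apply Finset.sum_congr rfl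
    intro f _
    exact Real.sq_sqrt (mul_nonneg (by positivity) (SQ_nonneg K f))
  simp only [hsq] at hcs
  have h1 : Real.sqrt (∑ f ∈ blk D j, ((f : ℝ) / f.totient) * SQ (Ioc a b) f) *
      Real.sqrt (∑ f ∈ blk D j, ((f : ℝ) / f.totient) * SQ P f) ≤
      40 * t ^ 3 * T * Real.sqrt (X * P.card) := by
    calc _ ≤ Real.sqrt ((40 * t ^ 3 * T) ^ 2 / 10) * Real.sqrt (10 * (X * P.card)) := by
          gcongr
      _ = Real.sqrt ((40 * t ^ 3 * T) ^ 2 / 10 * (10 * (X * P.card))) :=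
          (Real.sqrt_mul (by positivity) _).symm
      _ = Real.sqrt ((40 * t ^ 3 * T) ^ 2 * (X * P.card)) := by
          congr 1
          ring
      _ = 40 * t ^ 3 * T * Real.sqrt (X * P.card) := by
          rw [Real.sqrt_mul (by positivity), Real.sqrt_sq (by positivity)]
  calc ∑ f ∈ blk D j, (1 / (f.totient : ℝ)) * BS a b P f
      ≤ (1 / T) * (40 * t ^ 3 * T * Real.sqrt (X * P.card)) := by
        refine hmain.trans ?_
        gcongr
        exact hcs.trans h1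
    _ = 40 * t ^ 3 * Real.sqrt (X * P.card) := by
        field_simp
    _ ≤ 80 * t ^ 3 * Real.sqrt (X * P.card) := by
        gcongr
        norm_num

/-- ER-3b with ER-2 as a hypothesis -/
theorem interval_bilinear_of
    (H : ∀ (F U : ℕ) (_ : 1 ≤ F) (_ : F ^ 2 ≤ U) (K : Finset ℕ)
      (_ : ∀ k ∈ K, k < U) (c : ℕ → ℂ),
      ∑ f ∈ Icc 1 F, ((f : ℝ) / f.totient) * ∑ ψ ∈ prim f, ‖∑ k ∈ K, c k * ψ (k : ZMod f)‖ ^ 2 ≤
      5 * U * ∑ k ∈ K, ‖c k‖ ^ 2) :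
    ∃ C : ℝ, 0 < C ∧ ∀ (D M X a b : ℕ) (P : Finset ℕ), 1 ≤ D → 1 ≤ M →
    b ≤ 2 * M → 16 * D ^ 2 ≤ X → (∀ p ∈ P, 1 ≤ p ∧ p ≤ X) →
    ∑ f ∈ Icc 2 D, (1 / (f.totient : ℝ)) * ∑ ψ ∈ prim f,
        ‖∑ m ∈ Ioc a b, ψ (m : ZMod f)‖ * ‖∑ p ∈ P, ψ (p : ZMod f)‖ ≤
      C * (1 + Real.log D) * (M : ℝ) ^ (3 / 4 : ℝ) * Real.sqrt (X * P.card) := by
  refine ⟨160, by norm_num, fun D M X a b P hD hM hb hX hP => ?_⟩
  set t : ℝ := (M : ℝ) ^ (1 / 4 : ℝ) with ht
  have hM1 : (1 : ℝ) ≤ M := by exact_mod_cast hM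
  have ht1 : 1 ≤ t := Real.one_le_rpow hM1 (by norm_num)
  have ht4 : t ^ 4 = M := by
    rw [ht, ← Real.rpow_natCast, ← Real.rpow_mul (by positivity)]
    norm_num
  have ht3 : (M : ℝ) ^ (3 / 4 : ℝ) = t ^ 3 := by
    rw [ht, ← Real.rpow_natCast, ← Real.rpow_mul (by positivity)]
    norm_num
  have hPX : (P.card : ℝ) ≤ X := by
    have h1 : P ⊆ Icc 1 X := by
      intro p hp
      rw [mem_Icc]
      exact hP p hp
    have h2 := Finset.card_le_card h1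
    rw [Nat.card_Icc] at h2
    exact_mod_cast (by omega : P.card ≤ X)
  have hmaps : ∀ f ∈ Icc 2 D, Nat.log 2 f ∈ Icc 1 (Nat.log 2 D) := by
    intro f hf
    rw [mem_Icc] at hf ⊢
    refine ⟨?_, Nat.log_mono_right hf.2⟩
    exact Nat.log_pos (by norm_num) hf.1
  have h1 : ∑ f ∈ Icc 2 D, (1 / (f.totient : ℝ)) * BS a b P f =
      ∑ j ∈ Icc 1 (Nat.log 2 D), ∑ f ∈ blk D j, (1 / (f.totient : ℝ)) * BS a b P f :=
    (Finset.sum_fiberwise_of_maps_to hmaps _).symm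
  have h2 : ∀ j ∈ Icc 1 (Nat.log 2 D), ∑ f ∈ blk D j, (1 / (f.totient : ℝ)) * BS a b P f ≤
      80 * t ^ 3 * Real.sqrt (X * P.card) := by
    intro j hj
    rw [mem_Icc] at hj
    rcases le_or_gt ((2 : ℝ) ^ j) t with h | h
    · refine (block_small D M X a b P j t ht1 hPX h).trans ?_
      gcongr
      norm_num
    · have hjD : 2 ^ j ≤ D :=
        (Nat.pow_le_pow_right (by norm_num) hj.2).trans (Nat.pow_log_le_self 2 (by omega))
      exact block_large H D M X a b P j t ht1 ht4 hD hM hb hX hjD hP h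
  change ∑ f ∈ Icc 2 D, (1 / (f.totient : ℝ)) * BS a b P f ≤ _
  rw [h1, ht3]
  have hlogD : (Nat.log 2 D : ℝ) ≤ 2 * (1 + Real.log D) := by
    have hD0 : (0 : ℝ) < D := by exact_mod_cast hD
    have h3 : ((2 : ℝ) ^ (Nat.log 2 D)) ≤ D := by
      exact_mod_cast Nat.pow_log_le_self 2 (by omega)
    have h4 := Real.log_le_log (by positivity) h3
    rw [Real.log_pow] at h4
    have h5 : (0.5 : ℝ) ≤ Real.log 2 := by
      have := Real.log_two_gt_d9
      linarith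
    have h6 : (0 : ℝ) ≤ Nat.log 2 D := Nat.cast_nonneg _
    nlinarith
  have hS : 0 ≤ t ^ 3 * Real.sqrt (X * P.card) := by positivity
  calc ∑ j ∈ Icc 1 (Nat.log 2 D), ∑ f ∈ blk D j, (1 / (f.totient : ℝ)) * BS a b P f
      ≤ ∑ j ∈ Icc 1 (Nat.log 2 D), 80 * t ^ 3 * Real.sqrt (X * P.card) :=
        Finset.sum_le_sum h2
    _ = (Nat.log 2 D : ℝ) * (80 * t ^ 3 * Real.sqrt (X * P.card)) := by
        rw [Finset.sum_const, nsmul_eq_mul, Nat.card_Icc]
        simp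
    _ ≤ (2 * (1 + Real.log D)) * (80 * t ^ 3 * Real.sqrt (X * P.card)) := by
        gcongr
    _ = 160 * (1 + Real.log D) * t ^ 3 * Real.sqrt (X * P.card) := by ring

/-- ER-3b -/
theorem interval_bilinear : ∃ C : ℝ, 0 < C ∧ ∀ (D M X a b : ℕ) (P : Finset ℕ), 1 ≤ D → 1 ≤ M →
    b ≤ 2 * M → 16 * D ^ 2 ≤ X → (∀ p ∈ P, 1 ≤ p ∧ p ≤ X) →
    ∑ f ∈ Icc 2 D, (1 / (f.totient : ℝ)) * ∑ ψ ∈ prim f,
        ‖∑ m ∈ Ioc a b, ψ (m : ZMod f)‖ * ‖∑ p ∈ P, ψ (p : ZMod f)‖ ≤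
      C * (1 + Real.log D) * (M : ℝ) ^ (3 / 4 : ℝ) * Real.sqrt (X * P.card) :=
  interval_bilinear_of mult_large_sieve

end Pool.Agent.Helper6.ER
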